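import Pool.Agent.helper28.SN.SpecC

/-!
# Row sn:cLIM: the second derivatives of the MAP operators have small mass
-/

set_option autoImplicit false

open scoped Pointwise ContDiff
open MeasureTheory Set Filter Topology Pool.Agent.helper83.SC Pool.Agent.helper69.SN

set_option linter.unusedVariables false

namespace Pool.Agent.helper28.SN

/-- Multihomogeneity of the mixed discriminant. -/
theorem cLIM_smul {m : ℕ} (c : Fin m → ℝ) (M : Fin m → Mat m) :
    mD (fun j => c j • M j) = (∏ j, c j) * mD M := by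
  have h : ∀ σ : Equiv.Perm (Fin m), (Matrix.of fun i j => (c (σ i) • M (σ i)) i j).det
      = (∏ j, c j) * (Matrix.of fun i j => M (σ i) i j).det := by
    intro σ
    have h1 := Matrix.det_mul_column (fun i => c (σ i)) (Matrix.of fun i j => M (σ i) i j)
    rw [Equiv.prod_comp σ c] at h1
    rw [← h1]
    rfl
  have h2 : mD (fun j => c j • M j) = (1 / (m.factorial : ℝ)) * ∑ σ : Equiv.Perm (Fin m),
      (Matrix.of fun i j => (c (σ i) • M (σ i)) i j).det := rfl
  have h3 : mD M = (1 / (m.factorial : ℝ)) * ∑ σ : Equiv.Perm (Fin m),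
      (Matrix.of fun i j => M (σ i) i j).det := rfl
  rw [h2, h3, Finset.sum_congr rfl (fun σ _ => h σ), ← Finset.mul_sum]
  ring

/-- The functions whose Hessians are in the slots. -/
noncomputable def cLIM_F {m n : ℕ} (a : Fin n → E m → ℝ) (T : Finset (Fin n)) (b u : E m → ℝ) :
    Fin m → E m → ℝ :=
  fun i => if h : (i : ℕ) < T.card then a (T.orderEmbOfFin rfl ⟨i, h⟩)
    else if (i : ℕ) < T.card + 2 then b else u

theorem cLIM_slot {m n : ℕ} (a : Fin n → E m → ℝ) (S T : Finset (Fin n)) (K : ℝ) (b u : E m → ℝ)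
    (x : E m) (hT : T.card ≤ m) :
    mD (slotA (hs a (wt S K ∅ 0) x) T 2 (hess b x) (hess u x))
      = (if T ⊆ S then K ^ T.card else 0) * mD (fun i => hess (cLIM_F a T b u i) x) := by
  by_cases hTS : T ⊆ S
  · rw [if_pos hTS]
    have h1 : slotA (hs a (wt S K ∅ 0) x) T 2 (hess b x) (hess u x)
        = fun i : Fin m => (if (i : ℕ) < T.card then K else 1) • hess (cLIM_F a T b u i) x := by
      funext i
      by_cases h : (i : ℕ) < T.card
      · have hm : T.orderEmbOfFin rfl ⟨i, h⟩ ∈ S := hTS (T.orderEmbOfFin_mem rfl ⟨i, h⟩)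
        simp only [slotA, cLIM_F, hs, wt, dif_pos h, if_pos h, if_pos hm]
      · by_cases h' : (i : ℕ) < T.card + 2
        · simp only [slotA, cLIM_F, dif_neg h, if_neg h, if_pos h', one_smul]
        · simp only [slotA, cLIM_F, dif_neg h, if_neg h, if_neg h', one_smul]
    rw [h1, cLIM_smul]
    have h2 : ∏ i : Fin m, (if (i : ℕ) < T.card then K else 1) = K ^ T.card := by
      rw [Finset.prod_ite, Finset.prod_const, Finset.prod_const_one, mul_one]
      have h3 : (Finset.univ.filter fun i : Fin m => (i : ℕ) < T.card).card = T.card := by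
        rw [Fin.card_filter_val_lt, min_eq_right hT]
      rw [h3]
    rw [h2]
  · rw [if_neg hTS, zero_mul]
    obtain ⟨i₀, hi₀, hi₀'⟩ := Finset.not_subset.1 hTS
    have h1 : i₀ ∈ Set.range (T.orderEmbOfFin rfl) := by
      rw [Finset.range_orderEmbOfFin]
      exact hi₀
    obtain ⟨k, hk⟩ := h1
    have hkm : (k : ℕ) < m := lt_of_lt_of_le k.2 hT
    have h2 : slotA (hs a (wt S K ∅ 0) x) T 2 (hess b x) (hess u x)
        = fun i : Fin m => (if (i : ℕ) = k then (0 : ℝ) else 1) •
          slotA (hs a (wt S K ∅ 0) x) T 2 (hess b x) (hess u x) i := by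
      funext i
      by_cases h : (i : ℕ) = k
      · have hl : (i : ℕ) < T.card := by
          rw [h]
          exact k.2
        have he : (⟨(i : ℕ), hl⟩ : Fin T.card) = k := Fin.ext h
        rw [if_pos h, zero_smul]
        simp only [slotA, dif_pos hl, he, hk, hs, wt, if_neg hi₀']
        simp
      · rw [if_neg h, one_smul]
    rw [h2, cLIM_smul]
    have h3 : ∏ i : Fin m, (if (i : ℕ) = k then (0 : ℝ) else 1) = 0 :=
      Finset.prod_eq_zero (Finset.mem_univ (⟨k, hkm⟩ : Fin m)) (by simp)
    rw [h3, zero_mul]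

theorem cLIM_cont (hCH : continuous_hess_stmt) {m : ℕ} (F : Fin m → E m → ℝ)
    (hF : ∀ i, ContDiff ℝ ∞ (F i)) : Continuous fun x => mD (fun i => hess (F i) x) := by
  unfold mD
  refine continuous_const.mul (continuous_finsetSum _ fun σ _ => ?_)
  refine Continuous.matrix_det (continuous_matrix fun i j => ?_)
  exact (hCH (hF (σ i))).matrix_elem i j

theorem cLIM_quad {m : ℕ} {c : ℝ} (hc : 0 ≤ c) : SmC (fun x : E m => c * ‖x‖ ^ 2 / 2) := by
  refine ⟨?_, ?_⟩
  · exact (contDiff_const.mul (contDiff_norm_sq ℝ)).div_const 2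
  · have h1 : ConvexOn ℝ Set.univ (fun x : E m => ‖x‖ ^ 2) :=
      (convexOn_univ_norm).pow (fun x _ => norm_nonneg x) 2
    have h2 := h1.smul (show 0 ≤ c / 2 by positivity)
    refine h2.congr fun x _ => ?_
    simp only [smul_eq_mul]
    ring

theorem cLIM (hCLN : cCLN_stmt) (hVAN : cVAN_stmt) (hBDD : cBDD_stmt) (hNN : mD_nonneg_stmt)
    (hPSD : hess_psd_stmt) (hSQ : hess_normSq_stmt) (hCH : continuous_hess_stmt) : cLIM_stmt := by
  intro m n D h a S j ρ L hρ hL hh hpr ha hlim hD τ hτ
  obtain ⟨C, hC, hCL⟩ := hCLN m ρ hρ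
  have hc : 0 ≤ C * (L + 1) := mul_nonneg hC (by linarith)
  set q : E m → ℝ := fun x => C * (L + 1) * ‖x‖ ^ 2 / 2 with hq
  have hqS : SmC q := cLIM_quad hc
  have hqH : ∀ x, hess q x = (C * (L + 1)) • (1 : Mat m) := fun x => hSQ _ x
  -- the functions in the slots
  set G : Finset (Fin n) → ℕ → Fin m → E m → ℝ := fun T l => cLIM_F (a l) T (a l j) q with hG
  set H : Finset (Fin n) → Fin m → E m → ℝ := fun T => cLIM_F h T (h j) q with hH
  have hGS : ∀ T l i, SmC (G T l i) := by
    intro T l i
    simp only [hG, cLIM_F]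
    split_ifs
    · exact ha l _
    · exact ha l j
    · exact hqS
  have hHC : ∀ T i, CV (H T i) := by
    intro T i
    simp only [hH, cLIM_F]
    split_ifs
    · exact hh _
    · exact hh j
    · exact hqS.2
  have hGH : ∀ T i x, Tendsto (fun l => G T l i x) atTop (𝓝 (H T i x)) := by
    intro T i x
    simp only [hG, hH, cLIM_F]
    split_ifs
    · exact hlim _ x
    · exact hlim j x
    · exact tendsto_const_nhds
  set J : Finset (Fin n) → ℕ → ℝ := fun T l =>
    ∫ x in Metric.closedBall 0 (2 * ρ), mD (fun i => hess (G T l i) x) with hJ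
  have hGc : ∀ T l, Continuous fun x => mD (fun i => hess (G T l i) x) := fun T l =>
    cLIM_cont hCH _ fun i => (hGS T l i).1
  have hGn : ∀ T l x, 0 ≤ mD (fun i => hess (G T l i) x) := fun T l x =>
    hNN fun i => hPSD (hGS T l i).1 (hGS T l i).2 x
  have hGi : ∀ T l, IntegrableOn (fun x => mD (fun i => hess (G T l i) x))
      (Metric.closedBall (0 : E m) (2 * ρ)) := fun T l =>
    (hGc T l).continuousOn.integrableOn_compact (isCompact_closedBall 0 (2 * ρ))
  have hJ0 : ∀ T l, 0 ≤ J T l := fun T l =>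
    setIntegral_nonneg Metric.isClosed_closedBall.measurableSet fun x _ => hGn T l x
  -- bounded masses
  have hCT : ∀ T, ∃ c : ℝ, ∀ l, J T l ≤ c := fun T =>
    hBDD (H T) (G T) (2 * ρ) (hHC T) (hGS T) (hGH T)
  choose CT hCT using hCT
  -- the mass for `T = S` tends to zero
  have hJS : Tendsto (fun l => (m.descFactorial (S.card + 2) : ℝ) * J S l) atTop (𝓝 0) := by
    by_cases hm : S.card + 2 ≤ m
    · have h1 : Tendsto (fun l => J S l) atTop (𝓝 0) := by
        refine hVAN D (H S) (G S) (Finset.univ.filter fun i : Fin m => (i : ℕ) < S.card + 2) (2 * ρ)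
          (hHC S) (hGS S) (hGH S) ?_ ?_
        · rw [Fin.card_filter_val_lt, min_eq_right hm]
          exact hD
        · intro i hi x
          have hi2 : (i : ℕ) < S.card + 2 := (Finset.mem_filter.1 hi).2
          simp only [hH, cLIM_F]
          split_ifs
          · exact hpr _ x
          · exact hpr j x
      have h2 := h1.const_mul (m.descFactorial (S.card + 2) : ℝ)
      rw [mul_zero] at h2
      exact h2
    · have h0 : m.descFactorial (S.card + 2) = 0 := Nat.descFactorial_of_lt (by omega)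
      simp only [h0, Nat.cast_zero, zero_mul]
      exact tendsto_const_nhds
  -- the constants
  set M : ℝ := ∑ T : Finset (Fin n), (m.descFactorial (T.card + 2) : ℝ) * |CT T| with hM
  have hM0 : 0 ≤ M := Finset.sum_nonneg fun T _ => mul_nonneg (Nat.cast_nonneg _) (abs_nonneg _)
  refine ⟨1 + 2 * M / τ, by
    have : 0 ≤ 2 * M / τ := by positivity
    linarith, fun K hK => ?_⟩
  have hK1 : 1 ≤ K := by
    have : 0 ≤ 2 * M / τ := by positivity
    linarith
  have hKp : 0 < K := by linarith
  have hKM : K⁻¹ * M ≤ τ / 2 := by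
    have h1 : 2 * M / τ ≤ K := by linarith
    have h2 : 2 * M ≤ K * τ := by
      rw [div_le_iff₀ hτ] at h1
      exact h1
    rw [inv_mul_le_iff₀ hKp]
    linarith
  have hev : ∀ᶠ l in atTop, (m.descFactorial (S.card + 2) : ℝ) * J S l ≤ τ / 2 :=
    hJS.eventually_le_const (by linarith)
  filter_upwards [hev] with l hl X hX hXL hXG
  -- the mass estimate
  have hw : ∀ i, 0 ≤ wt S K ∅ 0 i := by
    intro i
    unfold wt
    split_ifs
    · exact hKp.le
    · exact le_refl _
    · exact le_refl _
  have h1 := hCL (a l) (wt S K ∅ 0) (a l j) X 2 L (ha l) hw (ha l j) hX hL hXL hXG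
  have h2 : ∀ x, dPh (hs (a l) (wt S K ∅ 0) x) 2 (hess (a l j) x) ((C * (L + 1)) • (1 : Mat m))
      = ∑ T : Finset (Fin n), ((m.descFactorial (T.card + 2) : ℝ) *
        (if T ⊆ S then K ^ T.card else 0)) * mD (fun i => hess (G T l i) x) := by
    intro x
    rw [← hqH x]
    unfold dPh
    refine Finset.sum_congr rfl fun T _ => ?_
    by_cases hT : T.card + 2 ≤ m
    · rw [cLIM_slot (a l) S T K (a l j) q x (by omega)]
      ring
    · have h0 : m.descFactorial (T.card + 2) = 0 := Nat.descFactorial_of_lt (by omega)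
      rw [h0]
      simp
  have hGib : ∀ T, IntegrableOn (fun x => mD (fun i => hess (G T l i) x))
      (Metric.ball (0 : E m) (2 * ρ)) := fun T => (hGi T l).mono_set Metric.ball_subset_closedBall
  have h3 : ∫ x in Metric.ball 0 (2 * ρ), dPh (hs (a l) (wt S K ∅ 0) x) 2 (hess (a l j) x)
        ((C * (L + 1)) • (1 : Mat m))
      = ∑ T : Finset (Fin n), ((m.descFactorial (T.card + 2) : ℝ) *
        (if T ⊆ S then K ^ T.card else 0)) *
          ∫ x in Metric.ball 0 (2 * ρ), mD (fun i => hess (G T l i) x) := by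
    simp only [h2]
    rw [integral_finsetSum _ fun T _ => (hGib T).const_mul _]
    refine Finset.sum_congr rfl fun T _ => ?_
    rw [integral_const_mul]
  have h4 : ∀ T, ∫ x in Metric.ball 0 (2 * ρ), mD (fun i => hess (G T l i) x) ≤ J T l := fun T =>
    setIntegral_mono_set (hGi T l) (Filter.Eventually.of_forall fun x => hGn T l x)
      (Metric.ball_subset_closedBall.eventuallyLE)
  have hKS : 0 < K ^ S.card := pow_pos hKp _
  have h5 : (K ^ S.card)⁻¹ * ∫ x in Metric.closedBall 0 ρ,
      dPh (hs (a l) (wt S K ∅ 0) x) 2 (hess (a l j) x) (hess X x) ≤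
      ∑ T : Finset (Fin n), ((if T = S then (m.descFactorial (S.card + 2) : ℝ) * J S l else 0)
        + K⁻¹ * ((m.descFactorial (T.card + 2) : ℝ) * |CT T|)) := by
    refine (mul_le_mul_of_nonneg_left h1 (inv_nonneg.2 hKS.le)).trans ?_
    rw [h3, Finset.mul_sum]
    refine Finset.sum_le_sum fun T _ => ?_
    have hd : (0 : ℝ) ≤ (m.descFactorial (T.card + 2) : ℝ) := Nat.cast_nonneg _
    have hp : 0 ≤ K⁻¹ * ((m.descFactorial (T.card + 2) : ℝ) * |CT T|) :=
      mul_nonneg (inv_nonneg.2 hKp.le) (mul_nonneg hd (abs_nonneg _))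
    by_cases hTS : T ⊆ S
    · rw [if_pos hTS]
      by_cases hE : T = S
      · subst hE
        rw [if_pos rfl]
        have : (K ^ T.card)⁻¹ * ((m.descFactorial (T.card + 2) : ℝ) * K ^ T.card *
            ∫ x in Metric.ball 0 (2 * ρ), mD (fun i => hess (G T l i) x))
            = (m.descFactorial (T.card + 2) : ℝ) *
              ∫ x in Metric.ball 0 (2 * ρ), mD (fun i => hess (G T l i) x) := by
          field_simp
        rw [this]
        have h6 := mul_le_mul_of_nonneg_left (h4 T) hd
        linarith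
      · rw [if_neg hE, zero_add]
        have hcard : T.card + 1 ≤ S.card :=
          Finset.card_lt_card (lt_of_le_of_ne hTS hE)
        have h6 : (K ^ S.card)⁻¹ * K ^ T.card ≤ K⁻¹ := by
          rw [inv_mul_le_iff₀ hKS, ← div_eq_mul_inv, le_div_iff₀ hKp, ← pow_succ]
          exact pow_le_pow_right₀ hK1 hcard
        have h7 : ∫ x in Metric.ball 0 (2 * ρ), mD (fun i => hess (G T l i) x) ≤ |CT T| :=
          (h4 T).trans ((hCT T l).trans (le_abs_self _))
        have h8 : 0 ≤ (K ^ S.card)⁻¹ * K ^ T.card :=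
          mul_nonneg (inv_nonneg.2 hKS.le) (pow_nonneg hKp.le _)
        calc (K ^ S.card)⁻¹ * ((m.descFactorial (T.card + 2) : ℝ) * K ^ T.card *
            ∫ x in Metric.ball 0 (2 * ρ), mD (fun i => hess (G T l i) x))
            = ((K ^ S.card)⁻¹ * K ^ T.card) * ((m.descFactorial (T.card + 2) : ℝ) *
            ∫ x in Metric.ball 0 (2 * ρ), mD (fun i => hess (G T l i) x)) := by ring
          _ ≤ ((K ^ S.card)⁻¹ * K ^ T.card) * ((m.descFactorial (T.card + 2) : ℝ) * |CT T|) :=
              mul_le_mul_of_nonneg_left (mul_le_mul_of_nonneg_left h7 hd) h8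
          _ ≤ K⁻¹ * ((m.descFactorial (T.card + 2) : ℝ) * |CT T|) :=
              mul_le_mul_of_nonneg_right h6 (mul_nonneg hd (abs_nonneg _))
    · have hE : T ≠ S := fun he => hTS (he ▸ Finset.Subset.refl _)
      rw [if_neg hTS, if_neg hE]
      simp only [mul_zero, zero_mul, zero_add]
      exact hp
  refine h5.trans ?_
  rw [Finset.sum_add_distrib, ← Finset.mul_sum, ← hM, Finset.sum_ite_eq' Finset.univ S]
  simp only [Finset.mem_univ, if_true]
  linarith

end Pool.Agent.helper28.SN
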